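import Pool.Agent.Helper60.MA.Main
import Pool.Agent.Helper60.MA.SDefs

/-!
# Additivity versus uniformity of the meager-additive ideal

We prove the negated form of Q1: it is consistent with `ZFC` that the additivity of the ideal of
the meager-additive sets is `ℵ₁` and its uniformity is larger than `ℵ₁`.
-/

namespace Pool.Agent.Results.MP_a38aea_lc.AddLtNon

open Pool.Agent.Helper96.Fc Pool.Agent.Helper60.MeagerAdditive

/-- **Main theorem.** There is a countable transitive model `N` of `ZFC`, with `W = ω₁` in `N`, such
that the following holds in `N`: every set of at most `ℵ₁` points of the Cantor space is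
meager-additive, and there is a family `F` of at most `ℵ₁` meager-additive sets whose union (which
is a set of points in `N`) is not meager-additive. -/
theorem result : ∃ (N : Set ZFSet.{0}) (W : ZFSet.{0}), N.Countable ∧ IsZFC N ∧
    NextCard N om W ∧ (∀ X, Pts N X → Onto N W X → MeagerAdd N X) ∧
      ∃ F ∈ N, Onto N W F ∧ (∀ X ∈ F, MeagerAdd N X) ∧ Pts N F.sUnion ∧
        ¬ MeagerAdd N F.sUnion :=
  Pool.Agent.Helper60.MA.main

end Pool.Agent.Results.MP_a38aea_lc.AddLtNon
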